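import Pool.Agent.Helper24.AB.Defs2
import Pool.Agent.Helper24.AB.NT.Goals

/-! # Project AB, module PHI: the functions `Φ` (PAPER.md, Section 8).  Every `def S_XXX : Prop` is a packet.

Throughout `e = a²-σ²`, `β = 4A²`, `y = 2√F`, `M = √(u²+g)`.  `S_NUM` (Goals file NT) has `κ² < 0.0236`. -/

open MeasureTheory Set Filter Topology
open scoped ContDiff

noncomputable section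

namespace Pool.Agent.Helper24.AB

/-- `q = f'/f` -/
def qf (y : ℝ) : ℝ := deriv fy y / fy y

/-- (QF) Facts on `f` and `q`.
Proof. `f(y) = ∫_{-1}^1(1-τ²)e^{yτ}dτ` is smooth (differentiate under the integral, or from the closed form away from `0`), positive, even;
`q` is odd, `q' ≥ 0` (variance of `τ`, Cauchy-Schwarz: `f''f ≥ f'²`), `q(0)=0`, `|q|<1` because `|τ|<1`.
For `y>0`: `f = 4𝒜/y³`, `𝒜 = y cosh y - sinh y`, `𝒜' = y sinh y`, `q = y sinh y/𝒜 - 3/y`, `yq+2 = ℬ/𝒜`, `ℬ = y² sinh y - 𝒜`;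
`f'' = f - (4/y)f'` (integrate by parts), so `q' = 1 - 4q/y - q²`.  `ℬ²-(1+y²)𝒜² = y²(sinh²y-y²) ≥ 0`, hence `yq+2 ≥ √(1+y²) ≥ y`:
`y²q' = y²+4-(yq+2)² ≤ 3`, `1-q ≤ 2/y`, and `q ≥ 1/2` for `y ≥ 4`. -/
def S_QF : Prop := ContDiff ℝ ∞ fy ∧ (∀ y, 0 < fy y) ∧ (∀ y, fy (-y) = fy y) ∧ qf 0 = 0 ∧
  (∀ y, |qf y| < 1) ∧ (∀ y, 0 ≤ y → 0 ≤ qf y) ∧ (∀ y, 0 ≤ deriv qf y) ∧
  (∀ y, 0 < y → y ^ 2 * deriv qf y ≤ 3) ∧ (∀ y, 0 < y → 1 - qf y ≤ 2 / y) ∧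
  (∀ y, 4 ≤ y → 1 / 2 ≤ qf y) ∧
  ∀ y, 0 < y → deriv qf y = 1 - 4 * qf y / y - qf y ^ 2

/-- `Λ(x) = log f(2√x)` -/
def Lam (x : ℝ) : ℝ := Real.log (fy (2 * Real.sqrt x))

/-- (LAM) All derivatives of `Λ` are bounded on `(0,∞)`.  May use (QF).
Proof. For `x ≥ 0`: `f(2√x) = ∫(1-τ²)cosh(2√xτ)dτ = ∑_nc_nx^n =: I(x)`, `c_n = (4^n/(2n)!)∫_{-1}^1(1-τ²)τ^{2n}dτ > 0`,
`(n+1)c_{n+1} ≤ 2c_n` (`4(n+1)/((2n+1)(2n+2)) = 2/(2n+1)`), so coefficientwise `I' ≤ 2I`, `I^{(k)} ≤ 2^kI`: `0 ≤ I^{(k)}(x) ≤ 2^kI(x)` for `x ≥ 0`.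
`Λ' = I'/I`, `(I^{(k)}/I)' = I^{(k+1)}/I-(I^{(k)}/I)(I'/I)`: every derivative of `Λ` is a polynomial in the bounded functions `I^{(j)}/I`. -/
def S_LAM : Prop := ContDiffOn ℝ ∞ Lam (Ioi 0) ∧
  ∀ k : ℕ, 1 ≤ k → ∃ C : ℝ, ∀ x : ℝ, 0 < x → |iteratedDeriv k Lam x| ≤ C

/-- (TEX) The exact formula of `Δ√F`.
Proof. `T = 2FΔF - F_σ² - F_t² = 4F√FΔ√F`.  `F_σ = 2ss'u²-2βσg`, `F_σσ = 2(s'²+ss'')u²-2βg`, `F_t = 2κ(s²u²-βev²)`,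
`F_tt = 4κ²(s²u²+βev²)` (`u_t = κu`, `v_t = -κv`), `F = s²u²+βeg`; expand. (`F>0`, so `√F` is smooth.) -/
def S_TEX : Prop := ∀ (a A : ℝ) (s : ℝ → ℝ), IsProfile a A s → ∀ α α' l : ℝ,
  (α ≠ 0 ∨ α' ≠ 0 ∨ l ≠ 0) → ∀ w ∈ strip a, 0 < Ff a A s α α' l w ∧
    lapC (fun w => Real.sqrt (Ff a A s α α' l w)) w * (4 * Ff a A s α α' l w *
      Real.sqrt (Ff a A s α α' l w)) =
      4 * s w.re ^ 3 * deriv (deriv s) w.re * uf α w.im ^ 4 +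
      4 * A ^ 2 * uf α w.im ^ 2 * gf α' l w.im * (-4 * s w.re ^ 2 +
        4 * (a ^ 2 - w.re ^ 2) * (deriv s w.re ^ 2 + s w.re * deriv (deriv s) w.re) +
        8 * s w.re * deriv s w.re * w.re) -
      4 * (4 * A ^ 2) ^ 2 * a ^ 2 * gf α' l w.im ^ 2 +
      4 * kap ^ 2 * s w.re ^ 4 * uf α w.im ^ 4 +
      8 * kap ^ 2 * s w.re ^ 2 * (4 * A ^ 2 * (a ^ 2 - w.re ^ 2)) * uf α w.im ^ 2 *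
        (gf α' l w.im + 2 * vf α' w.im ^ 2) +
      4 * kap ^ 2 * (4 * A ^ 2 * (a ^ 2 - w.re ^ 2)) ^ 2 *
        (2 * gf α' l w.im * vf α' w.im ^ 2 - vf α' w.im ^ 4)

/-- (FB) Bounds for `F` and its gradient.
Proof. `A√e ≤ s` on `(-a,a)`: `s ≥ A/2 ≥ A√e` for `|σ| ≤ 19a/20` (`√e ≤ 1/2`), `s = 2A√e/a ≥ 4A√e` beyond; `s² ≤ 4A²e/a²` (le_edge) and
`4A²e ≤ 4A²e/a²`.  `|F_σ| ≤ 2s|s'|u²+2β|σ|g ≤ (21/10)(|σ|/e)(s²u²+βeg)`; `|F_t| = 2κ|s²u²-βev²| ≤ 2κF`. -/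
def S_FB : Prop := ∀ (a A : ℝ) (s : ℝ → ℝ), IsProfile a A s → ∀ α α' l : ℝ, ∀ w ∈ strip a,
  A ^ 2 * (a ^ 2 - w.re ^ 2) ≤ s w.re ^ 2 ∧
  A ^ 2 * (a ^ 2 - w.re ^ 2) * (uf α w.im ^ 2 + gf α' l w.im) ≤ Ff a A s α α' l w ∧
  Ff a A s α α' l w ≤ 4 * A ^ 2 * ((a ^ 2 - w.re ^ 2) / a ^ 2) * (uf α w.im ^ 2 + gf α' l w.im) ∧
  s w.re ^ 2 * uf α w.im ^ 2 ≤ Ff a A s α α' l w ∧
  |dS (Ff a A s α α' l) w| ≤ 21 / 10 * |w.re| / (a ^ 2 - w.re ^ 2) * Ff a A s α α' l w ∧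
  |dT (Ff a A s α α' l) w| ≤ 2 * kap * Ff a A s α α' l w

/-- (VID) The formula for `V = ΔΦ⁰`. Uses (QF) (smoothness and positivity of `fy`), (TEX) (only `F>0`).
Proof. `V = -κ²Au - ½(log s)'' - ½(log e)'' - ½Δ(log f(y))`, `y = 2√F`; `-½(log e)'' = (a²+σ²)/e²`;
`Δ(log f(y)) = q(y)Δy+q'(y)|∇y|²`, `Δy = 2Δ√F`, `|∇y|² = |∇F|²/F`; `-Δ√F = -ΔH⁰+κ²Au`. -/
def S_VID : Prop := ∀ (a A : ℝ) (s : ℝ → ℝ), IsProfile a A s → ∀ α α' l : ℝ,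
  (α ≠ 0 ∨ α' ≠ 0 ∨ l ≠ 0) → ∀ w ∈ strip a,
    lapC (Phi0 a A s α α' l) w =
      qf (2 * Real.sqrt (Ff a A s α α' l w)) * (-lapC (H0f a A s α α' l) w) -
      kap ^ 2 * A * uf α w.im * (1 - qf (2 * Real.sqrt (Ff a A s α α' l w))) -
      (deriv (deriv s) w.re / s w.re - deriv s w.re ^ 2 / s w.re ^ 2) / 2 +
      (a ^ 2 + w.re ^ 2) / (a ^ 2 - w.re ^ 2) ^ 2 -
      deriv qf (2 * Real.sqrt (Ff a A s α α' l w)) *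
        (dS (Ff a A s α α' l) w ^ 2 + dT (Ff a A s α α' l) w ^ 2) / (2 * Ff a A s α α' l w)

/-- (VLB) `V ≥ q(-ΔH⁰) + ¼a²/e²`. Uses (QF), (FB), (VID), `S_NUM`.
Proof. `q' ≤ 3/y² = 3/(4F)`, so the last term is `≤ (3/8)(F_σ²+F_t²)/F² ≤ (3/8)((21/10)²σ²/e²+4κ²) = 1.65375σ²/e²+1.5κ²`;
`-(s''/s-s'²/s²)/2 ≥ 0` (`s'' ≤ 0` by k1).  `κ²Au(1-q) ≤ 0` if `u ≤ 0` (drop), and `≤ κ²Au·2/y ≤ κ²A/s` if `u>0` (`y ≥ 2su`).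
`(a²+σ²-1.65375σ²)/e² ≥ 0.34625a²/e²`, `1.5κ² ≤ 0.0354 ≤ 0.00885a²/e²` (`a²/e² ≥ 1/a² ≥ 4`); `κ²A/s ≤ 2κ² ≤ 0.0118a²/e²` if `s ≥ A/2`, and
if `s = 2A√e/a`: `κ²A/s = κ²a/(2√e) = (κ²e^{3/2}/(2a))·(a²/e²) ≤ 0.003a²/e²`. -/
def S_VLB : Prop := ∀ (a A : ℝ) (s : ℝ → ℝ), IsProfile a A s → ∀ α α' l : ℝ,
  (α ≠ 0 ∨ α' ≠ 0 ∨ l ≠ 0) → ∀ w ∈ strip a,
    qf (2 * Real.sqrt (Ff a A s α α' l w)) * (-lapC (H0f a A s α α' l) w) +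
      a ^ 2 / (4 * (a ^ 2 - w.re ^ 2) ^ 2) ≤ lapC (Phi0 a A s α α' l) w

/-- (PA) Lower bounds for `-ΔH⁰`. Uses `S_LH0`, (FB), `S_NUM`.
Proof. Let `M² = u²+g > 0`.  `4F√F ≤ 32A³M³(e/a²)^{3/2} ≤ 32A³M³`.
(1) `(18/5)A⁴u²g+48A⁴a²g² ≥ A⁴g(14.4a²u²+48a²g) ≥ 14.4a²A⁴gM²` (`1 ≥ 4a²`), divide: `≥ (9/20)a²A·g/M`.
(2) `|σ| ≥ 19a/20`: `s = 2A√e/a`, `s'' = -2Aa e^{-3/2}` (at `|σ| = 19a/20` by continuity), `κ₁ ≥ Aa e^{-3/2}` because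
`κ²(s+A) ≤ 0.0236·3A ≤ Aa e^{-3/2}` (`e ≤ a²`, so `a e^{-3/2} ≥ a^{-2} ≥ 4`); `s³κ₁ ≥ 8A⁴/a²`;
`32u⁴/a²+(18/5)u²g+48a²g² ≥ 12a²M⁴` (`a ≤ 1/2`), so `-ΔH⁰ ≥ 12a²A⁴M⁴/(32A³M³)·(a³e^{-3/2})`. -/
def S_PA : Prop := ∀ (a A : ℝ) (s : ℝ → ℝ), IsProfile a A s → ∀ α α' l : ℝ,
  (α ≠ 0 ∨ α' ≠ 0 ∨ l ≠ 0) → ∀ w ∈ strip a, 0 ≤ kone A s w.re ∧
    kap ^ 2 * A * max (-(uf α w.im)) 0 +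
      9 / 20 * a ^ 2 * A * gf α' l w.im / Real.sqrt (uf α w.im ^ 2 + gf α' l w.im) ≤
      -lapC (H0f a A s α α' l) w ∧
    (19 / 20 * a ≤ |w.re| → 3 / 8 * a ^ 2 * A * Real.sqrt (uf α w.im ^ 2 + gf α' l w.im) ≤
      -lapC (H0f a A s α α' l) w)

/-- (VAP) `V = κ₁u + O(1)` in the inner part if `u` is large. Uses (QF), (TEX), (FB), (VID).
Proof. `|σ| ≤ 39a/40`: `e ≥ e₃ > 0`, `s ≥ A√e₃`, `s, s', s''` are bounded (compactness).  `u ≥ 1+g`, so `v², l² ≤ g ≤ u ≤ u²`.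
(TEX): the right-hand side is `4s⁴u⁴(s''/s+κ²)+R`, `|R| ≤ C(u²g+g²) ≤ C'u²g`; `F ≥ s²u²`, `x = s²u²`, `F-x = βeg`:
`Δ√F = (s''+κ²s)u(x/F)^{3/2}+R/(4F^{3/2})`, `0 ≤ 1-(x/F)^{3/2} ≤ (3/2)(F-x)/F ≤ Cg/u²`, so `|Δ√F-(s''+κ²s)u| ≤ C g/u ≤ C` and
`|-ΔH⁰-κ₁u| ≤ C`.  In (VID): `(1-q)|ΔH⁰| ≤ (1/(su))(κ₁u+C) ≤ C` (`1-q ≤ 2/y ≤ 1/(su)`), `κ²Au(1-q) ≤ C`, the remaining terms are bounded (the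
last one by `(3/8)|∇F|²/F² ≤ C`). -/
def S_VAP : Prop := ∀ (a A : ℝ) (s : ℝ → ℝ), IsProfile a A s → ∃ C : ℝ, 0 < C ∧
  ∀ α α' l : ℝ, 0 < α → ∀ w ∈ strip a, |w.re| ≤ 39 / 40 * a → 1 + gf α' l w.im ≤ uf α w.im →
    |lapC (Phi0 a A s α α' l) w - kone A s w.re * uf α w.im| ≤ C

/-- (PH1) Assembly of `S_PHI1`. Uses (QF), (FB), (VLB), (PA), (VAP), `S_NUM`.
Proof. `W ≤ 2+2M`.  `1 ≤ V`: `¼a²/e² ≥ 1/(4a²) ≥ 1`, `q(-ΔH⁰) ≥ 0`.  `y ≥ 2A√e M` (FB).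
Case `y<4`: `√e < 2/(AM)`, so `V ≥ a²/(4e²) ≥ (a²A⁴/64)M⁴`, and `M⁴ ≥ M-1`, `M⁴ ≥ g²`; also `s|u| < 2`, so
`(κ²A/4)|u| ≤ κ²A/(2s) ≤ a²/(8e²)` (if `s ≥ A/2`: `≤ κ² ≤ 1/2`; if `s = 2A√e/a`: `κ²a/(4√e) ≤ a²/(8e²)`).
Case `y ≥ 4`: `q ≥ 1/2`, `V ≥ ½(-ΔH⁰)`.  `α<0`: `V-(κ²A/4)|u| ≥ ¼κ²A|u|+(9/40)a²Ag/M ≥ cM` (`g ≥ u²`: `g/M ≥ M/2`; otherwise `|u| ≥ M/√2`).
`|σ| ≥ 19a/20`: (PA).  `v² ≥ R(1+u)`, `u ≥ 0`, `R ≥ 1`: `g/√(u²+g)` is increasing in `g` and `u²+R(1+u) ≤ R(1+u)²`, so `g/M ≥ √R`; in the case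
`y<4`: `M⁴ ≥ g² ≥ R² ≥ √R`. -/
def S_PH1 : Prop := S_PHI1

/-- (PH2) `S_PHI2`. Uses (QF), (TEX) (`F>0`), `S_PHI1`.
Proof. Smoothness: `F>0` and smooth, `s>0`, `e>0`, `fy>0` smooth; `p` is smooth on `strip (3a/2)`.  `lapC` is linear on smooth functions (open set).
`α>0`: `Δp ≥ 0`, `V ≥ 1`.  `α<0`: `αΔp ≥ -|α|δ₀e^{κt} = -δ₀|u| ≥ -(κ²A/4)|u|` and (PHI1). -/
def S_PH2 : Prop := S_PHI2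

end Pool.Agent.Helper24.AB
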